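import Pool.Agent.Work.MP_e24068_lc.Defs

/-!
Factorizations are preserved and reflected by renaming letters.
-/

set_option autoImplicit false

namespace Pool.Agent.Work.MP_e24068_lc

variable {α β : Type*}

/-- The image of a language under a renaming of the letters. -/
def mapL (f : α → β) (K : Language α) : Language β := {w | ∃ v ∈ K, v.map f = w}

theorem mem_mapL {f : α → β} {K : Language α} {w : List β} :
    w ∈ mapL f K ↔ ∃ v ∈ K, v.map f = w := Iff.rfl

/-- Renaming the letters by a map which is injective on the letters of `L` neither creates nor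
destroys nontrivial factorizations of a nonempty finite language `L`. -/
theorem hasFactorization_map_iff {L : Language α} (hne : ∃ w, w ∈ L)
    (hfin : Set.Finite (L : Set (List α))) (f : α → β)
    (hf : ∀ w ∈ L, ∀ x ∈ w, ∀ w' ∈ L, ∀ y ∈ w', f x = f y → x = y) {M : Language β}
    (hM : ∀ w, w ∈ M ↔ ∃ v ∈ L, v.map f = w) :
    HasFactorization M ↔ HasFactorization L := by
  constructor
  · rintro ⟨M₁, M₂, -, -, hm, h1, h2⟩
    set S : Set α := {x | ∃ w ∈ L, x ∈ w} with hS
    have hinj : Set.InjOn f S := by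
      rintro x ⟨w, hw, hx⟩ y ⟨w', hw', hy⟩ hxy
      exact hf w hw x hx w' hw' y hy hxy
    have hlist : ∀ v v' : List α, (∀ x ∈ v, x ∈ S) → (∀ x ∈ v', x ∈ S) → v.map f = v'.map f →
        v = v' := by
      intro v
      induction v with
      | nil => intro v' _ _ h; simpa [eq_comm] using h
      | cons x v ih =>
        intro v' hv hv' h
        cases v' with
        | nil => simp at h
        | cons y v' =>
          simp only [List.map_cons, List.cons.injEq] at h
          rw [hinj (hv x (by simp)) (hv' y (by simp)) h.1,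
            ih v' (fun z hz => hv z (by simp [hz])) (fun z hz => hv' z (by simp [hz])) h.2]
    set L₁ : Language α := {v | v.map f ∈ M₁ ∧ ∀ x ∈ v, x ∈ S} with hL₁
    set L₂ : Language α := {v | v.map f ∈ M₂ ∧ ∀ x ∈ v, x ∈ S} with hL₂
    have hL : L = L₁ * L₂ := by
      ext w
      rw [Language.mem_mul]
      constructor
      · intro hw
        have h3 : w.map f ∈ M := (hM _).2 ⟨w, hw, rfl⟩
        rw [hm, Language.mem_mul] at h3
        obtain ⟨p, hp, q, hq, hpq⟩ := h3
        obtain ⟨w₁, w₂, rfl, rfl, rfl⟩ := List.map_eq_append_iff.1 hpq.symm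
        exact ⟨w₁, ⟨hp, fun x hx => ⟨_, hw, by simp [hx]⟩⟩, w₂, ⟨hq, fun x hx => ⟨_, hw, by simp [hx]⟩⟩,
          rfl⟩
      · rintro ⟨p, ⟨hp, hpS⟩, q, ⟨hq, hqS⟩, rfl⟩
        have h3 : (p ++ q).map f ∈ M := by
          rw [hm, List.map_append]
          exact Language.append_mem_mul hp hq
        obtain ⟨v, hv, hv'⟩ := (hM _).1 h3
        rw [← hlist v (p ++ q) (fun x hx => ⟨v, hv, hx⟩) ?_ hv']
        · exact hv
        · intro x hx
          rcases List.mem_append.1 hx with h | h
          · exact hpS x h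
          · exact hqS x h
    obtain ⟨w₀, hw₀⟩ := hne
    have hw₀' := hw₀
    rw [hL, Language.mem_mul] at hw₀'
    obtain ⟨p₀, hp₀, q₀, hq₀, -⟩ := hw₀'
    have key : ∀ p ∈ M₁, ∀ q ∈ M₂, ∃ v₁ v₂, v₁ ∈ L₁ ∧ v₂ ∈ L₂ ∧ v₁.map f = p ∧ v₂.map f = q := by
      intro p hp q hq
      have h3 : p ++ q ∈ M := by
        rw [hm]
        exact Language.append_mem_mul hp hq
      obtain ⟨v, hv, hv'⟩ := (hM _).1 h3
      obtain ⟨w₁, w₂, rfl, rfl, rfl⟩ := List.map_eq_append_iff.1 hv'
      exact ⟨w₁, w₂, ⟨hp, fun x hx => ⟨_, hv, by simp [hx]⟩⟩, ⟨hq, fun x hx => ⟨_, hv, by simp [hx]⟩⟩,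
        rfl, rfl⟩
    refine ⟨L₁, L₂, ?_, ?_, hL, ?_, ?_⟩
    · refine Set.Finite.of_finite_image (f := fun x => x ++ q₀) (hfin.subset ?_) ?_
      · rintro w ⟨x, hx, rfl⟩
        show x ++ q₀ ∈ L
        rw [hL]
        exact Language.append_mem_mul hx hq₀
      · intro x _ x' _ hxx
        exact List.append_cancel_right hxx
    · refine Set.Finite.of_finite_image (f := fun x => p₀ ++ x) (hfin.subset ?_) ?_
      · rintro w ⟨x, hx, rfl⟩
        show p₀ ++ x ∈ L
        rw [hL]
        exact Language.append_mem_mul hp₀ hx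
      · intro x _ x' _ hxx
        exact List.append_cancel_left hxx
    · intro h
      apply h1
      have hnil : ([] : List α) ∈ L₁ := by rw [h]; exact Language.nil_mem_one
      have hnil' : ([] : List β) ∈ M₁ := by simpa using hnil.1
      ext p
      rw [Language.mem_one]
      constructor
      · intro hp
        obtain ⟨v₁, v₂, h3, h4, h5, h6⟩ := key p hp _ hq₀.1
        rw [h, Language.mem_one] at h3
        rw [← h5, h3]
        rfl
      · rintro rfl
        exact hnil'
    · intro h
      apply h2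
      have hnil : ([] : List α) ∈ L₂ := by rw [h]; exact Language.nil_mem_one
      have hnil' : ([] : List β) ∈ M₂ := by simpa using hnil.1
      ext p
      rw [Language.mem_one]
      constructor
      · intro hp
        obtain ⟨v₁, v₂, h3, h4, h5, h6⟩ := key _ hp₀.1 p hp
        rw [h, Language.mem_one] at h4
        rw [← h6, h4]
        rfl
      · rintro rfl
        exact hnil'
  · rintro ⟨L₁, L₂, hf1, hf2, hm, h1, h2⟩
    have aux : ∀ K : Language α, K ≠ 1 → mapL f K ≠ 1 := by
      intro K hK h
      apply hK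
      ext w
      rw [Language.mem_one]
      constructor
      · intro hw
        have : w.map f ∈ mapL f K := ⟨w, hw, rfl⟩
        rw [h, Language.mem_one] at this
        simpa using this
      · rintro rfl
        have : ([] : List β) ∈ mapL f K := by
          rw [h]; exact Language.nil_mem_one
        obtain ⟨v, hv, hv'⟩ := this
        have : v = [] := by simpa using hv'
        exact this ▸ hv
    refine ⟨mapL f L₁, mapL f L₂, ?_, ?_, ?_, aux _ h1, aux _ h2⟩
    · exact hf1.image (fun v => v.map f)
    · exact hf2.image (fun v => v.map f)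
    · ext w
      rw [hM, Language.mem_mul, hm]
      constructor
      · rintro ⟨v, hv, rfl⟩
        rw [Language.mem_mul] at hv
        obtain ⟨p, hp, q, hq, rfl⟩ := hv
        exact ⟨p.map f, ⟨p, hp, rfl⟩, q.map f, ⟨q, hq, rfl⟩, by simp⟩
      · rintro ⟨_, ⟨p, hp, rfl⟩, _, ⟨q, hq, rfl⟩, rfl⟩
        exact ⟨p ++ q, Language.append_mem_mul hp hq, by simp⟩

end Pool.Agent.Work.MP_e24068_lc
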