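import Pool.Agent.Work.MP_e24068_lc.Lists
import Pool.Agent.Work.MP_e24068_lc.Transport
import Pool.Agent.Work.TMLib.Lib2
import Pool.Agent.Work.TMLib.FP
import Pool.Agent.Work.TMLib.CookLevin

/-!
FACT is NP-hard for languages all of whose words have length at most `15`.
-/

set_option autoImplicit false

namespace Pool.Agent.Work.MP_e24068_lc

open TMLib Letter

/-- Letters as triples of numbers. -/
def toT : Letter → ℕ × ℕ × ℕ
  | a => (0, 0, 0)
  | z v => (1, v)
  | t v => (2, v)
  | h c => (3, c, 0)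
  | he => (4, 0, 0)
  | dN => (5, 0, 0)
  | dF => (6, 0, 0)

instance : DE Letter := ⟨fun x => de (toT x)⟩

/-- The number of a letter. -/
def code (x : Letter) : ℕ :=
  7 * (((toT x).2.1 + (toT x).2.2) * ((toT x).2.1 + (toT x).2.2) + (toT x).2.1) + (toT x).1

theorem sq_inj {i j i' j' : ℕ} (h : (i + j) * (i + j) + i = (i' + j') * (i' + j') + i') :
    i = i' ∧ j = j' := by
  have h1 : i + j = i' + j' := by
    rcases lt_trichotomy (i + j) (i' + j') with h' | h' | h'
    · have : (i + j + 1) * (i + j + 1) ≤ (i' + j') * (i' + j') := Nat.mul_le_mul h' h'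
      nlinarith
    · exact h'
    · have : (i' + j' + 1) * (i' + j' + 1) ≤ (i + j) * (i + j) := Nat.mul_le_mul h' h'
      nlinarith
  rw [h1] at h
  omega

theorem code_inj {x y : Letter} (hxy : code x = code y) : x = y := by
  have h1 : (toT x).1 < 7 := by cases x <;> simp [toT]
  have h2 : (toT y).1 < 7 := by cases y <;> simp [toT]
  unfold code at hxy
  have h3 : (toT x).1 = (toT y).1 := by omega
  obtain ⟨h4, h5⟩ := sq_inj (by omega : ((toT x).2.1 + (toT x).2.2) * ((toT x).2.1 + (toT x).2.2) +
    (toT x).2.1 = ((toT y).2.1 + (toT y).2.2) * ((toT y).2.1 + (toT y).2.2) + (toT y).2.1)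
  cases x <;> cases y <;> simp_all [toT, Prod.ext_iff]

section PolyF

variable {α : Type} [DE α]

@[fun_prop]
theorem PolyF.toT {f : α → Letter} (hf : PolyF f) : PolyF (fun x => MP_e24068_lc.toT (f x)) :=
  PolyF.comp (f := fun y : Letter => MP_e24068_lc.toT y)
    (PolyF.of_G (PolyG.refl _) fun _ => rfl) hf

@[fun_prop]
theorem PolyF.letter_z {f : α → Var} (hf : PolyF f) : PolyF (fun x => Letter.z (f x)) :=
  PolyF.comp (f := fun y : Var => Letter.z y)
    (PolyF.of_G (PolyF.toG (f := fun y : Var => ((1, y) : ℕ × ℕ × ℕ)) (by fun_prop))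
      fun _ => rfl) hf

@[fun_prop]
theorem PolyF.letter_t {f : α → Var} (hf : PolyF f) : PolyF (fun x => Letter.t (f x)) :=
  PolyF.comp (f := fun y : Var => Letter.t y)
    (PolyF.of_G (PolyF.toG (f := fun y : Var => ((2, y) : ℕ × ℕ × ℕ)) (by fun_prop))
      fun _ => rfl) hf

@[fun_prop]
theorem PolyF.letter_h {f : α → ℕ} (hf : PolyF f) : PolyF (fun x => Letter.h (f x)) :=
  PolyF.comp (f := fun y : ℕ => Letter.h y)
    (PolyF.of_G (PolyF.toG (f := fun y : ℕ => ((3, y, 0) : ℕ × ℕ × ℕ)) (by fun_prop))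
      fun _ => rfl) hf

@[fun_prop]
theorem PolyF.code {f : α → Letter} (hf : PolyF f) : PolyF (fun x => MP_e24068_lc.code (f x)) := by
  unfold MP_e24068_lc.code
  fun_prop

@[fun_prop]
theorem PolyF.u {f : α → Lit} (hf : PolyF f) : PolyF (fun x => MP_e24068_lc.u (f x)) := by
  unfold MP_e24068_lc.u
  fun_prop

@[fun_prop]
theorem PolyF.A {f : α → ℕ} (hf : PolyF f) : PolyF (fun x => MP_e24068_lc.A (f x)) := by
  have : PolyF (fun x => (TMLib.units (f x)).map fun _ => Letter.a) :=
    PolyF.map (l := fun x => TMLib.units (f x)) (f := fun _ _ => Letter.a) (by fun_prop)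
      (by fun_prop)
  refine this.congrF fun x => ?_
  simp [TMLib.units, MP_e24068_lc.A]

@[fun_prop]
theorem PolyF.litsL {f : α → List Var} (hf : PolyF f) :
    PolyF (fun x => MP_e24068_lc.litsL (f x)) := by
  unfold MP_e24068_lc.litsL
  exact PolyF.flatMap (l := f) (f := fun _ v => [(v, true), (v, false)]) hf (by fun_prop)

@[fun_prop]
theorem PolyF.UPl {f : α → List Var} (hf : PolyF f) : PolyF (fun x => MP_e24068_lc.UPl (f x)) := by
  refine PolyF.comp (f := fun V : List Var => MP_e24068_lc.UPl V) ?_ hf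
  unfold MP_e24068_lc.UPl
  refine PolyF.append ?_ ?_
  · refine PolyF.flatMap (l := fun V : List Var => MP_e24068_lc.litsL V)
      (f := fun V l => (MP_e24068_lc.litsL V).map fun l' => MP_e24068_lc.u l ++ MP_e24068_lc.u l')
      (by fun_prop) ?_
    exact PolyF.map (l := fun p : List Var × Lit => MP_e24068_lc.litsL p.1)
      (f := fun p l' => MP_e24068_lc.u p.2 ++ MP_e24068_lc.u l') (by fun_prop) (by fun_prop)
  · refine PolyF.flatMap (l := fun V : List Var => V)
      (f := fun V v => ((MP_e24068_lc.litsL V).filter fun l => !decide (l = (v, true))).map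
        fun l => Letter.t v :: MP_e24068_lc.u l) (by fun_prop) ?_
    refine PolyF.map (l := fun p : List Var × Var => (MP_e24068_lc.litsL p.1).filter
      fun l => !decide (l = (p.2, true)))
      (f := fun p l => Letter.t p.2 :: MP_e24068_lc.u l) ?_ (by fun_prop)
    exact PolyF.filter (l := fun p : List Var × Var => MP_e24068_lc.litsL p.1)
      (f := fun p l => !decide (l = (p.2, true))) (by fun_prop) (by fun_prop)

@[fun_prop]
theorem PolyF.DNl {f : α → List Var} (hf : PolyF f) : PolyF (fun x => MP_e24068_lc.DNl (f x)) := by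
  refine PolyF.comp (f := fun V : List Var => MP_e24068_lc.DNl V) ?_ hf
  unfold MP_e24068_lc.DNl
  refine PolyF.flatMap (l := fun _ : List Var => List.range 4)
    (f := fun V j => MP_e24068_lc.A j :: (MP_e24068_lc.UPl V).map fun y => MP_e24068_lc.A j ++ y)
    (by fun_prop) ?_
  refine PolyF.cons (by fun_prop) ?_
  exact PolyF.map (l := fun p : List Var × ℕ => MP_e24068_lc.UPl p.1)
    (f := fun p y => MP_e24068_lc.A p.2 ++ y) (by fun_prop) (by fun_prop)

@[fun_prop]
theorem PolyF.SEl {f : α → List Var} (hf : PolyF f) : PolyF (fun x => MP_e24068_lc.SEl (f x)) := by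
  refine PolyF.comp (f := fun V : List Var => MP_e24068_lc.SEl V) ?_ hf
  unfold MP_e24068_lc.SEl
  refine PolyF.cons (by fun_prop) ?_
  exact PolyF.flatMap (l := fun V : List Var => V) (f := fun _ v => [[Letter.z v], [Letter.t v]])
    (by fun_prop) (by fun_prop)

@[fun_prop]
theorem PolyF.DCl {f : α → List Var} {g : α → Cl} (hf : PolyF f) (hg : PolyF g) :
    PolyF (fun x => MP_e24068_lc.DCl (f x) (g x)) := by
  refine PolyF.comp (f := fun p : List Var × Cl => MP_e24068_lc.DCl p.1 p.2)
    (g := fun x => (f x, g x)) ?_ (by fun_prop)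
  unfold MP_e24068_lc.DCl
  refine PolyF.append (by fun_prop) ?_
  refine PolyF.flatMap (l := fun _ : List Var × Cl => List.range 5)
    (f := fun p k => ((MP_e24068_lc.litsL p.1).filter fun l =>
      !((decide (k = 1) && decide (l = p.2.1)) || (decide (k = 2) && decide (l = p.2.2.1)) ||
        (decide (k = 3) && decide (l = p.2.2.2)))).map
        fun l => MP_e24068_lc.A k ++ MP_e24068_lc.u l) (by fun_prop) ?_
  refine PolyF.map (l := fun q : (List Var × Cl) × ℕ => (MP_e24068_lc.litsL q.1.1).filter fun l =>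
      !((decide (q.2 = 1) && decide (l = q.1.2.1)) || (decide (q.2 = 2) && decide (l = q.1.2.2.1)) ||
        (decide (q.2 = 3) && decide (l = q.1.2.2.2))))
    (f := fun q l => MP_e24068_lc.A q.2 ++ MP_e24068_lc.u l) ?_ (by fun_prop)
  exact PolyF.filter (l := fun q : (List Var × Cl) × ℕ => MP_e24068_lc.litsL q.1.1)
    (f := fun q l => !((decide (q.2 = 1) && decide (l = q.1.2.1)) ||
      (decide (q.2 = 2) && decide (l = q.1.2.2.1)) ||
        (decide (q.2 = 3) && decide (l = q.1.2.2.2)))) (by fun_prop) (by fun_prop)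

/-- Products of lists of words between two markers. -/
def prodL (r d : Letter) (l l' : List (List Letter)) : List (List Letter) :=
  l.flatMap fun s => l'.map fun t => r :: (s ++ t ++ [d])

@[fun_prop]
theorem PolyF.prodL {f g : α → Letter} {l l' : α → List (List Letter)} (hf : PolyF f)
    (hg : PolyF g) (hl : PolyF l) (hl' : PolyF l') :
    PolyF (fun x => MP_e24068_lc.prodL (f x) (g x) (l x) (l' x)) := by
  refine PolyF.comp (f := fun p : (Letter × Letter) × (List (List Letter) × List (List Letter)) =>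
    MP_e24068_lc.prodL p.1.1 p.1.2 p.2.1 p.2.2) (g := fun x => ((f x, g x), (l x, l' x))) ?_
    (by fun_prop)
  unfold MP_e24068_lc.prodL
  refine PolyF.flatMap
    (l := fun p : (Letter × Letter) × (List (List Letter) × List (List Letter)) => p.2.1)
    (f := fun p s => p.2.2.map fun t => p.1.1 :: (s ++ t ++ [p.1.2])) (by fun_prop) ?_
  exact PolyF.map (l := fun q : ((Letter × Letter) × (List (List Letter) × List (List Letter))) ×
      List Letter => q.1.2.2) (f := fun q t => q.1.1.1 :: (q.2 ++ t ++ [q.1.1.2])) (by fun_prop)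
    (by fun_prop)

@[fun_prop]
theorem PolyF.rowL {f : α → List Var} {i : α → ℕ} {g : α → Cl} (hf : PolyF f) (hi : PolyF i)
    (hg : PolyF g) : PolyF (fun x => MP_e24068_lc.rowL (f x) (i x) (g x)) := by
  have : PolyF (fun x => MP_e24068_lc.prodL (Letter.h (i x)) dN (MP_e24068_lc.DCl (f x) (g x))
      (MP_e24068_lc.DNl (f x)) ++ MP_e24068_lc.prodL (Letter.h (i x)) dF
      (MP_e24068_lc.DCl (f x) (g x)) TFl ++ [Letter.h (i x) :: (MP_e24068_lc.A 3 ++ [dF])]) := by
    fun_prop
  exact this.congrF fun x => rfl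

@[fun_prop]
theorem PolyF.rowE {f : α → List Var} (hf : PolyF f) :
    PolyF (fun x => MP_e24068_lc.rowE (f x)) := by
  have h1 : PolyF (fun x => (f x).map fun v => [he, Letter.t v, Letter.z v, dN]) :=
    PolyF.map (l := f) (f := fun _ v => [he, Letter.t v, Letter.z v, dN]) hf (by fun_prop)
  have : PolyF (fun x => MP_e24068_lc.prodL he dN (MP_e24068_lc.SEl (f x))
      (MP_e24068_lc.DNl (f x)) ++ MP_e24068_lc.prodL he dF
      (MP_e24068_lc.SEl (f x)) TFl ++ (f x).map fun v => [he, Letter.t v, Letter.z v, dN]) := by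
    fun_prop
  exact this.congrF fun x => rfl

@[fun_prop]
theorem PolyF.LLl {f : α → List Cl} {g : α → List Var} (hf : PolyF f) (hg : PolyF g) :
    PolyF (fun x => MP_e24068_lc.LLl (f x) (g x)) := by
  refine PolyF.comp (f := fun p : List Cl × List Var => MP_e24068_lc.LLl p.1 p.2)
    (g := fun x => (f x, g x)) ?_ (by fun_prop)
  unfold MP_e24068_lc.LLl
  refine PolyF.append ?_ (by fun_prop)
  exact PolyF.flatMap (l := fun p : List Cl × List Var => List.range p.1.length)
    (f := fun p i => MP_e24068_lc.rowL p.2 i (p.1.getD i ((((0, 0), true)), ((0, 0), true),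
      ((0, 0), true)))) (by fun_prop) (by fun_prop)

@[fun_prop]
theorem PolyF.chain {i : α → ℕ} {c : α → List (ℕ × Bool)} (hi : PolyF i) (hc : PolyF c) :
    PolyF (fun x => MP_e24068_lc.chain (i x) (c x)) := by
  refine PolyF.comp (f := fun p : ℕ × List (ℕ × Bool) => MP_e24068_lc.chain p.1 p.2)
    (g := fun x => (i x, c x)) ?_ (by fun_prop)
  unfold MP_e24068_lc.chain
  refine PolyF.cons (by fun_prop) (PolyF.cons (by fun_prop) ?_)
  exact PolyF.map (l := fun p : ℕ × List (ℕ × Bool) => List.range p.2.length)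
    (f := fun p j => ((((p.1 + 1, j), false)), ((0, (p.2.getD j (0, true)).1),
      (p.2.getD j (0, true)).2), ((p.1 + 1, j + 1), true))) (by fun_prop) (by fun_prop)

@[fun_prop]
theorem PolyF.to3 {f : α → TMLib.CNF} (hf : PolyF f) :
    PolyF (fun x => MP_e24068_lc.to3 (f x)) := by
  refine PolyF.comp (f := fun p : TMLib.CNF => MP_e24068_lc.to3 p) ?_ hf
  unfold MP_e24068_lc.to3
  exact PolyF.flatMap (l := fun p : TMLib.CNF => List.range p.length)
    (f := fun p i => MP_e24068_lc.chain i (p.getD i [])) (by fun_prop) (by fun_prop)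

@[fun_prop]
theorem PolyF.varsL {f : α → List Cl} (hf : PolyF f) :
    PolyF (fun x => MP_e24068_lc.varsL (f x)) := by
  unfold MP_e24068_lc.varsL
  exact PolyF.flatMap (l := f) (f := fun _ c => [c.1.1, c.2.1.1, c.2.2.1]) hf (by fun_prop)

@[fun_prop]
theorem PolyF.encNum {f : α → ℕ} (hf : PolyF f) : PolyF (fun x => MP_e24068_lc.encNum (f x)) := by
  have : PolyF (fun x => (TMLib.units (f x)).map (fun _ => (0 : Fin 3)) ++ [(1 : Fin 3)]) := by
    refine PolyF.append ?_ (by fun_prop)
    exact PolyF.map (l := fun x => TMLib.units (f x)) (f := fun _ _ => (0 : Fin 3)) (by fun_prop)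
      (by fun_prop)
  refine this.congrF fun x => ?_
  simp [TMLib.units, MP_e24068_lc.encNum]

@[fun_prop]
theorem PolyF.finToBool {f : α → Fin 2} (hf : PolyF f) : PolyF (fun x => finTwoEquiv (f x)) := by
  refine PolyF.comp (f := fun b : Fin 2 => finTwoEquiv b) ?_ hf
  refine PolyF.of_G (PolyG.refl _) ?_
  intro b
  fin_cases b <;> rfl

end PolyF

/-- The words of a formula. -/
def wordsOf (φ : TMLib.CNF) : List (List Letter) := LLl (to3 φ) (varsL (to3 φ))

/-- A bound for the numbers of the letters. -/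
def bound (φ : TMLib.CNF) : ℕ := ((wordsOf φ).flatMap fun w => w.map code).sum

theorem code_le_bound {φ : TMLib.CNF} {w : List Letter} (hw : w ∈ wordsOf φ) {x : Letter}
    (hx : x ∈ w) : code x ≤ bound φ := by
  apply List.le_sum_of_mem
  rw [List.mem_flatMap]
  exact ⟨w, hw, List.mem_map_of_mem hx⟩

/-- The instance of a formula. -/
def instOf (φ : TMLib.CNF) : Inst :=
  ⟨bound φ + 1, (wordsOf φ).map fun w => w.map fun x => Fin.ofNat (bound φ + 1) (code x)⟩

theorem mem_instOf {φ : TMLib.CNF} {w : List (Fin (bound φ + 1))} :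
    w ∈ (instOf φ).lang ↔
      ∃ v ∈ LL (to3 φ) (varsL (to3 φ)), v.map (fun x => Fin.ofNat (bound φ + 1) (code x)) = w := by
  show w ∈ (wordsOf φ).map _ ↔ _
  rw [List.mem_map]
  simp only [wordsOf, mem_LLl]

theorem instOf_iff (φ : TMLib.CNF) : HasFactorization (instOf φ).lang ↔ TMLib.Sat φ := by
  rw [← factorization_iff]
  refine hasFactorization_map_iff ?_ (finite_LL _ _)
    (fun x => Fin.ofNat (bound φ + 1) (code x)) ?_ (fun w => mem_instOf)
  · exact ⟨_, mem_LL.2 comp_he_nil_dN⟩
  · intro w hw x hx w' hw' y hy hxy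
    apply code_inj
    have h1 := code_le_bound (mem_LLl.2 hw : w ∈ wordsOf φ) hx
    have h2 := code_le_bound (mem_LLl.2 hw' : w' ∈ wordsOf φ) hy
    have h3 := congrArg Fin.val hxy
    simp only [Fin.val_ofNat] at h3
    rwa [Nat.mod_eq_of_lt (by omega), Nat.mod_eq_of_lt (by omega)] at h3

theorem length_instOf (φ : TMLib.CNF) : ∀ w ∈ (instOf φ).2, w.length ≤ 15 := by
  intro w hw
  obtain ⟨v, hv, hvw⟩ := mem_instOf.1 hw
  have h := congrArg List.length hvw
  rw [List.length_map] at h
  exact h ▸ length_LL hv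

theorem instOf_ne_nil (φ : TMLib.CNF) : (instOf φ).2 ≠ [] := by
  have h : ([he, dN] : List Letter) ∈ wordsOf φ := mem_LLl.2 (mem_LL.2 comp_he_nil_dN)
  intro h'
  have h2 : (wordsOf φ).map (fun w => w.map fun x => Fin.ofNat (bound φ + 1) (code x)) = [] := h'
  rw [List.map_eq_nil_iff] at h2
  rw [h2] at h
  simp at h

/-- The string of the instance of a formula. -/
def strOf (φ : TMLib.CNF) : List (Fin 3) :=
  encNum (bound φ + 1) ++ (wordsOf φ).flatMap fun w => (w.flatMap fun x => encNum (code x)) ++ [2]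

theorem enc_instOf (φ : TMLib.CNF) : (instOf φ).enc = strOf φ := by
  have key : ((wordsOf φ).map fun w => w.map fun x =>
      Fin.ofNat (bound φ + 1) (code x)).flatMap (fun w => (w.flatMap fun x => encNum x.val) ++ [2]) =
      (wordsOf φ).flatMap fun w => (w.flatMap fun x => encNum (code x)) ++ [2] := by
    rw [List.flatMap_map]
    refine List.flatMap_congr fun w hw => ?_
    congr 1
    rw [List.flatMap_map]
    refine List.flatMap_congr fun x hx => ?_
    rw [Fin.val_ofNat, Nat.mod_eq_of_lt]
    have := code_le_bound hw hx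
    omega
  exact congrArg (fun l => encNum (bound φ + 1) ++ l) key

theorem polyF_wordsOf : PolyF wordsOf := by
  have : PolyF (fun φ : TMLib.CNF => LLl (to3 φ) (varsL (to3 φ))) := by fun_prop
  exact this

theorem polyF_bound : PolyF bound := by
  have hw := polyF_wordsOf
  unfold bound
  refine PolyF.sum ?_
  refine PolyF.flatMap (l := fun φ : TMLib.CNF => wordsOf φ) (f := fun _ w => w.map code) hw ?_
  exact PolyF.map (l := fun p : TMLib.CNF × List Letter => p.2) (f := fun _ x => code x)
    (by fun_prop) (by fun_prop)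

theorem polyF_strOf : PolyF strOf := by
  have hw := polyF_wordsOf
  have hb := polyF_bound
  unfold strOf
  refine PolyF.append (by fun_prop) ?_
  refine PolyF.flatMap (l := fun φ : TMLib.CNF => wordsOf φ)
    (f := fun _ w => (w.flatMap fun x => encNum (code x)) ++ [2]) hw ?_
  refine PolyF.append ?_ (by fun_prop)
  exact PolyF.flatMap (l := fun p : TMLib.CNF × List Letter => p.2)
    (f := fun _ x => encNum (code x)) (by fun_prop) (by fun_prop)

/-- **FACT is NP-hard for languages all of whose words have length at most `15`.** -/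
theorem npHard :
    NPHard Inst.enc {I : Inst | I.2 ≠ [] ∧ ∀ w ∈ I.2, w.length ≤ 15}
      {I : Inst | HasFactorization I.lang} := by
  intro L hL
  obtain ⟨g, hg, hgL⟩ := cook_levin L hL
  refine ⟨fun w => instOf (g w), ?_, ?_⟩
  · refine PolyTime.of_PolyF (A := Bool) (B := Fin 3) (N := 2) (M := 3) finTwoEquiv.symm
      (Equiv.refl _) (g := fun w => strOf (g (w.map finTwoEquiv))) ?_ ?_
    · refine PolyF.comp (f := strOf) (g := fun w : List (Fin 2) => g (w.map finTwoEquiv))
        polyF_strOf (PolyF.comp (f := g) hg ?_)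
      exact PolyF.map (l := fun w : List (Fin 2) => w) (f := fun _ b => finTwoEquiv b)
        (by fun_prop) (by fun_prop)
    · intro w
      rw [enc_instOf]
      simp [List.map_map, Function.comp_def]
  · intro w
    refine ⟨⟨instOf_ne_nil _, length_instOf _⟩, ?_⟩
    rw [hgL w, Set.mem_ofPred_eq, instOf_iff]

end Pool.Agent.Work.MP_e24068_lc
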