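import Mathlib

/-!
The combinatorial core: a finite language `LL ψ V` attached to a 3-CNF formula `ψ`, all of whose
words have length at most `15`, which has a nontrivial factorization if and only if `ψ` is
satisfiable.
-/

set_option autoImplicit false

namespace Pool.Agent.Work.MP_e24068_lc

/-- Variables. -/
abbrev Var := ℕ × ℕ
/-- Literals: `(v, b)` says that `v` has the truth value `b`. -/
abbrev Lit := Var × Bool
/-- Clauses with three literals. -/
abbrev Cl := Lit × Lit × Lit

/-- The letters. -/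
inductive Letter
  | a
  | z (v : Var)
  | t (v : Var)
  | h (c : ℕ)
  | he
  | dN
  | dF
  deriving DecidableEq

open Letter

/-- The word of a literal. -/
def u (l : Lit) : List Letter := bif l.2 then [z l.1] else [t l.1, z l.1]

/-- The word `a^k`. -/
def A (k : ℕ) : List Letter := List.replicate k a

@[simp] theorem u_true (v : Var) : u (v, true) = [z v] := rfl
@[simp] theorem u_false (v : Var) : u (v, false) = [t v, z v] := rfl
@[simp] theorem A_zero : A 0 = [] := rfl
theorem A_succ (k : ℕ) : A (k + 1) = a :: A k := rfl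
theorem A_add (j k : ℕ) : A (j + k) = A j ++ A k := List.replicate_add ..

theorem u_cases (l : Lit) : (l.2 = true ∧ u l = [z l.1]) ∨ (l.2 = false ∧ u l = [t l.1, z l.1]) := by
  obtain ⟨v, b⟩ := l
  cases b <;> simp

theorem u_ne_nil (l : Lit) : u l ≠ [] := by
  rcases u_cases l with h | h <;> simp [h.2]

theorem u_inj {l l' : Lit} (h : u l = u l') : l = l' := by
  obtain ⟨v, b⟩ := l
  obtain ⟨v', b'⟩ := l'
  cases b <;> cases b' <;> simp_all

/-- The literal words form a prefix code. -/
theorem u_prefix {l l' : Lit} {x : List Letter} (h : u l = u l' ++ x) : l = l' ∧ x = [] := by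
  obtain ⟨v, b⟩ := l
  obtain ⟨v', b'⟩ := l'
  cases b <;> cases b' <;> simp_all

/-- `w` does not start with the letter `a`. -/
def NoA (w : List Letter) : Prop := ∀ x, w ≠ a :: x

theorem noA_nil : NoA [] := by intro x; simp
theorem noA_u (l : Lit) (x : List Letter) : NoA (u l ++ x) := by
  intro y
  rcases u_cases l with h | h <;> simp [h.2]

theorem A_inj {j k : ℕ} {x y : List Letter} (hx : NoA x) (hy : NoA y) (h : A j ++ x = A k ++ y) :
    j = k ∧ x = y := by
  induction j generalizing k with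
  | zero =>
    cases k with
    | zero => simpa using h
    | succ k => exact absurd (by simpa [A_succ] using h) (hx (A k ++ y))
  | succ j ih =>
    cases k with
    | zero => exact absurd (by simpa [A_succ] using h.symm) (hy (A j ++ x))
    | succ k =>
      have := ih (k := k) (by simpa [A_succ] using h)
      exact ⟨by omega, this.2⟩

section

variable (ψ : List Cl) (V : List Var)

/-- Absorbing words. -/
def UP (y : List Letter) : Prop :=
  (∃ l l' : Lit, l.1 ∈ V ∧ l'.1 ∈ V ∧ y = u l ++ u l') ∨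
  (∃ v ∈ V, ∃ l : Lit, l.1 ∈ V ∧ l ≠ (v, true) ∧ y = t v :: u l)

/-- The fixed words of the second factor before the marker `dN`. -/
def DN (w : List Letter) : Prop := ∃ j ≤ 3, ∃ y, (y = [] ∨ UP V y) ∧ w = A j ++ y

/-- The words of the second factor before the marker `dF`. -/
def TF (w : List Letter) : Prop := ∃ j ≤ 2, w = A j

/-- The words of the first factor after the marker `he`. -/
def SE (w : List Letter) : Prop := w = [] ∨ ∃ v ∈ V, w = [z v] ∨ w = [t v]

/-- The literal `l` is not the `k`-th literal of `c`. -/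
def Nl (k : ℕ) (c : Cl) (l : Lit) : Prop :=
  (k = 1 → l ≠ c.1) ∧ (k = 2 → l ≠ c.2.1) ∧ (k = 3 → l ≠ c.2.2)

/-- The fixed words of the first factor after the marker of the clause `c`. -/
def DC (c : Cl) (w : List Letter) : Prop :=
  (∃ k, (k = 0 ∨ k = 4) ∧ w = A k) ∨
  (∃ k ≤ 4, ∃ l : Lit, l.1 ∈ V ∧ Nl k c l ∧ w = A k ++ u l)

/-- The words between the markers. -/
def Comp (r d : Letter) (x : List Letter) : Prop :=
  (∃ i c, ψ[i]? = some c ∧ r = h i ∧ d = dN ∧ ∃ s t, DC V c s ∧ DN V t ∧ x = s ++ t) ∨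
  (∃ i c, ψ[i]? = some c ∧ r = h i ∧ d = dF ∧ ((∃ s t, DC V c s ∧ TF t ∧ x = s ++ t) ∨ x = A 3)) ∨
  (r = he ∧ d = dN ∧ ((∃ s t, SE V s ∧ DN V t ∧ x = s ++ t) ∨ ∃ v ∈ V, x = [t v, z v])) ∨
  (r = he ∧ d = dF ∧ ∃ s t, SE V s ∧ TF t ∧ x = s ++ t)

/-- The language of the formula. -/
def LL : Language Letter := {w | ∃ r d x, Comp ψ V r d x ∧ w = r :: (x ++ [d])}

/-- A row marker. -/
def IsR (r : Letter) : Prop := r = he ∨ ∃ i, r = h i
/-- A column marker. -/
def IsD (r : Letter) : Prop := r = dN ∨ r = dF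
/-- No marker occurs. -/
def Free (x : List Letter) : Prop := ∀ y ∈ x, ¬ IsR y ∧ ¬ IsD y

variable {ψ V}

theorem Free.append {x y : List Letter} (hx : Free x) (hy : Free y) : Free (x ++ y) := by
  intro w hw
  rcases List.mem_append.1 hw with h | h
  · exact hx w h
  · exact hy w h

theorem free_nil : Free [] := by simp [Free]

theorem free_A (k : ℕ) : Free (A k) := by
  intro y hy
  rw [List.eq_of_mem_replicate hy]
  simp [IsR, IsD]

theorem free_u (l : Lit) : Free (u l) := by
  rcases u_cases l with h | h <;> simp [h.2, Free, IsR, IsD]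

theorem free_UP {y : List Letter} (h : UP V y) : Free y := by
  rcases h with ⟨l, l', -, -, rfl⟩ | ⟨v, -, l, -, -, rfl⟩
  · exact (free_u l).append (free_u l')
  · have : Free ([t v] ++ u l) := Free.append (by simp [Free, IsR, IsD]) (free_u l)
    simpa using this

theorem free_DN {y : List Letter} (h : DN V y) : Free y := by
  obtain ⟨j, -, y, h | h, rfl⟩ := h
  · subst h; exact (free_A j).append free_nil
  · exact (free_A j).append (free_UP h)

theorem free_TF {y : List Letter} (h : TF y) : Free y := by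
  obtain ⟨j, -, rfl⟩ := h
  exact free_A j

theorem free_SE {y : List Letter} (h : SE V y) : Free y := by
  rcases h with rfl | ⟨v, -, rfl | rfl⟩
  · exact free_nil
  · simp [Free, IsR, IsD]
  · simp [Free, IsR, IsD]

theorem free_DC {c : Cl} {y : List Letter} (h : DC V c y) : Free y := by
  rcases h with ⟨k, -, rfl⟩ | ⟨k, -, l, -, -, rfl⟩
  · exact free_A k
  · exact (free_A k).append (free_u l)

theorem Comp.free {r d : Letter} {x : List Letter} (h : Comp ψ V r d x) :
    IsR r ∧ IsD d ∧ Free x := by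
  rcases h with ⟨i, c, -, rfl, rfl, s, t, hs, ht, rfl⟩ |
    ⟨i, c, -, rfl, rfl, ⟨s, t, hs, ht, rfl⟩ | rfl⟩ |
    ⟨rfl, rfl, ⟨s, t, hs, ht, rfl⟩ | ⟨v, -, rfl⟩⟩ | ⟨rfl, rfl, s, t, hs, ht, rfl⟩
  · exact ⟨.inr ⟨_, rfl⟩, .inl rfl, (free_DC hs).append (free_DN ht)⟩
  · exact ⟨.inr ⟨_, rfl⟩, .inr rfl, (free_DC hs).append (free_TF ht)⟩
  · exact ⟨.inr ⟨_, rfl⟩, .inr rfl, free_A 3⟩
  · exact ⟨.inl rfl, .inl rfl, (free_SE hs).append (free_DN ht)⟩
  · exact ⟨.inl rfl, .inl rfl, by simp [Free, IsR, IsD]⟩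
  · exact ⟨.inl rfl, .inr rfl, (free_SE hs).append (free_TF ht)⟩

theorem isR_not_isD {r : Letter} (h : IsR r) : ¬ IsD r := by
  rcases h with rfl | ⟨i, rfl⟩ <;> simp [IsD]

/-! ### Words which are not in the language -/

theorem not_comp_A3 : ¬ Comp ψ V he dF (A 3) := by
  rintro (⟨i, c, -, h, -⟩ | ⟨i, c, -, h, -⟩ | ⟨-, h, -⟩ | ⟨-, -, s, t, hs, ht, h⟩)
  · simp at h
  · simp at h
  · simp at h
  · obtain ⟨j, hj, rfl⟩ := ht
    rcases hs with rfl | ⟨v, -, rfl | rfl⟩
    · have := congrArg List.length h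
      simp [A] at this
      omega
    · simp [A_succ] at h
    · simp [A_succ] at h

theorem not_comp_tz (v : Var) : ¬ Comp ψ V he dF [t v, z v] := by
  rintro (⟨i, c, -, h, -⟩ | ⟨i, c, -, h, -⟩ | ⟨-, h, -⟩ | ⟨-, -, s, t', hs, ht, h⟩)
  · simp at h
  · simp at h
  · simp at h
  · obtain ⟨j, hj, rfl⟩ := ht
    rcases hs with rfl | ⟨v', -, rfl | rfl⟩
    · cases j <;> simp [A_succ] at h
    · simp at h
    · cases j <;> simp [A_succ] at h

theorem u_not_UP (l : Lit) : ¬ UP V (u l) := by
  rintro (⟨l1, l2, -, -, h⟩ | ⟨v, -, l', -, hne, h⟩)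
  · exact u_ne_nil l2 (u_prefix h).2
  · rcases u_cases l with h' | h'
    · rw [h'.2] at h
      simp at h
    · rw [h'.2] at h
      simp only [List.cons.injEq, Letter.t.injEq] at h
      apply hne
      obtain ⟨h1, h2⟩ := h
      rcases u_cases l' with h3 | h3
      · rw [h3.2] at h2
        simp only [List.cons.injEq, Letter.z.injEq, and_true] at h2
        ext
        · rw [← h2, h1]
        · rw [← h2, h1]
        · simp [h3.1]
      · rw [h3.2] at h2
        simp at h2

theorem not_comp_lit {i : ℕ} {c : Cl} (hc : ψ[i]? = some c) {k : ℕ} {l : Lit} (hl : ¬ Nl k c l) : ¬ Comp ψ V (h i) dN (A k ++ u l) := by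
  rintro (⟨i', c', hc', h1, -, s, t', hs, ht, h2⟩ | ⟨i', c', -, -, h1, -⟩ | ⟨h1, -⟩ | ⟨h1, -⟩)
  · simp only [Letter.h.injEq] at h1
    subst h1
    rw [hc] at hc'
    simp only [Option.some.injEq] at hc'
    subst hc'
    obtain ⟨j, hj, y, hy, rfl⟩ := ht
    rcases hs with ⟨k', hk', rfl⟩ | ⟨k', hk', l', hl', hn, rfl⟩
    · rw [← List.append_assoc, ← A_add] at h2
      have hyA : NoA y := by
        rcases hy with rfl | (⟨l1, l2, -, -, rfl⟩ | ⟨v, -, l2, -, -, rfl⟩)
        · exact noA_nil
        · exact noA_u _ _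
        · intro x; simp
      have h3 := A_inj (by simpa using noA_u l []) hyA h2
      rcases hy with hy | hy
      · rw [hy] at h3
        exact u_ne_nil l h3.2
      · rw [← h3.2] at hy
        exact u_not_UP l hy
    · rw [List.append_assoc] at h2
      have h3 := A_inj (by simpa using noA_u l []) (noA_u l' _) h2
      obtain ⟨h4, -⟩ := u_prefix h3.2
      rw [h3.1, h4] at hl
      exact hl hn
  · simp at h1
  · simp at h1
  · simp at h1

end

end Pool.Agent.Work.MP_e24068_lc
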