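import Mathlib
import Pool.Agent.Work.TMLib.Classes

/-!
The decision problem FACT.
-/

set_option autoImplicit false

namespace Pool.Agent.Work.MP_e24068_lc

/-- The language `L` has a nontrivial factorization: it is the product of two finite languages,
both different from `{ε}`. -/
def HasFactorization {α : Type*} (L : Language α) : Prop :=
  ∃ L₁ L₂ : Language α, Set.Finite (L₁ : Set (List α)) ∧ Set.Finite (L₂ : Set (List α)) ∧
    L = L₁ * L₂ ∧ L₁ ≠ 1 ∧ L₂ ≠ 1

/-- An instance of FACT: a number `n` of letters and a list of words over the alphabet `Fin n`. -/
abbrev Inst := Σ n : ℕ, List (List (Fin n))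

/-- The finite language listed by an instance. -/
def Inst.lang (I : Inst) : Language (Fin I.1) := {w | w ∈ I.2}

/-- A natural number in unary: `x` symbols `0` followed by the symbol `1`. -/
def encNum (x : ℕ) : List (Fin 3) := List.replicate x 0 ++ [1]

/-- Instances as strings over three symbols: the number of letters, then the words one after the
other, each letter written as a number, each word closed by the symbol `2`. -/
def Inst.enc (I : Inst) : List (Fin 3) :=
  encNum I.1 ++ I.2.flatMap fun w => (w.flatMap fun x => encNum x.val) ++ [2]

end Pool.Agent.Work.MP_e24068_lc
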