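import Pool.Agent.Work.MP_e24068_lc.Main
import Pool.Agent.Work.TMLib.CNF

/-!
The language of a formula as an explicit list of words, and the reduction of the satisfiability of
CNF formulas to that of formulas with three literals per clause.
-/

set_option autoImplicit false

namespace Pool.Agent.Work.MP_e24068_lc

open Letter

/-- The literals over the given variables. -/
def litsL (V : List Var) : List Lit := V.flatMap fun v => [(v, true), (v, false)]

theorem mem_litsL {V : List Var} {l : Lit} : l ∈ litsL V ↔ l.1 ∈ V := by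
  obtain ⟨v, b⟩ := l
  simp only [litsL, List.mem_flatMap, List.mem_cons, Prod.mk.injEq, List.not_mem_nil, or_false]
  constructor
  · rintro ⟨w, hw, ⟨rfl, -⟩ | ⟨rfl, -⟩⟩ <;> exact hw
  · intro h
    cases b
    · exact ⟨v, h, .inr ⟨rfl, rfl⟩⟩
    · exact ⟨v, h, .inl ⟨rfl, rfl⟩⟩

/-- The list of the words in `UP V`. -/
def UPl (V : List Var) : List (List Letter) :=
  ((litsL V).flatMap fun l => (litsL V).map fun l' => u l ++ u l') ++
  V.flatMap fun v => ((litsL V).filter fun l => !decide (l = (v, true))).map fun l => t v :: u l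

theorem mem_UPl {V : List Var} {y : List Letter} : y ∈ UPl V ↔ UP V y := by
  simp only [UPl, UP, List.mem_append, List.mem_flatMap, List.mem_map, mem_litsL, List.mem_filter,
    Bool.not_eq_true', decide_eq_false_iff_not]
  constructor
  · rintro (⟨l, hl, l', hl', rfl⟩ | ⟨v, hv, l, ⟨hl, hne⟩, rfl⟩)
    · exact .inl ⟨l, l', hl, hl', rfl⟩
    · exact .inr ⟨v, hv, l, hl, hne, rfl⟩
  · rintro (⟨l, l', hl, hl', rfl⟩ | ⟨v, hv, l, hl, hne, rfl⟩)
    · exact .inl ⟨l, hl, l', hl', rfl⟩
    · exact .inr ⟨v, hv, l, ⟨hl, hne⟩, rfl⟩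

/-- The list of the words in `DN V`. -/
def DNl (V : List Var) : List (List Letter) :=
  (List.range 4).flatMap fun j => A j :: (UPl V).map fun y => A j ++ y

theorem mem_DNl {V : List Var} {y : List Letter} : y ∈ DNl V ↔ DN V y := by
  simp only [DNl, DN, List.mem_flatMap, List.mem_range, List.mem_cons, List.mem_map, mem_UPl]
  constructor
  · rintro ⟨j, hj, rfl | ⟨x, hx, rfl⟩⟩
    · exact ⟨j, by omega, [], .inl rfl, by simp⟩
    · exact ⟨j, by omega, x, .inr hx, rfl⟩
  · rintro ⟨j, hj, x, rfl | hx, rfl⟩
    · exact ⟨j, by omega, .inl (by simp)⟩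
    · exact ⟨j, by omega, .inr ⟨x, hx, rfl⟩⟩

/-- The list of the words in `TF`. -/
def TFl : List (List Letter) := (List.range 3).map A

theorem mem_TFl {y : List Letter} : y ∈ TFl ↔ TF y := by
  simp only [TFl, TF, List.mem_map, List.mem_range]
  constructor
  · rintro ⟨j, hj, rfl⟩; exact ⟨j, by omega, rfl⟩
  · rintro ⟨j, hj, rfl⟩; exact ⟨j, by omega, rfl⟩

/-- The list of the words in `SE V`. -/
def SEl (V : List Var) : List (List Letter) := [] :: V.flatMap fun v => [[z v], [t v]]

theorem mem_SEl {V : List Var} {y : List Letter} : y ∈ SEl V ↔ SE V y := by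
  simp only [SEl, SE, List.mem_cons, List.mem_flatMap, List.not_mem_nil, or_false]

/-- The list of the words in `DC V c`. -/
def DCl (V : List Var) (c : Cl) : List (List Letter) :=
  [A 0, A 4] ++ (List.range 5).flatMap fun k =>
    ((litsL V).filter fun l =>
      !((decide (k = 1) && decide (l = c.1)) || (decide (k = 2) && decide (l = c.2.1)) ||
        (decide (k = 3) && decide (l = c.2.2)))).map fun l => A k ++ u l

theorem mem_DCl {V : List Var} {c : Cl} {y : List Letter} : y ∈ DCl V c ↔ DC V c y := by
  have key : ∀ (k : ℕ) (l : Lit), (!((decide (k = 1) && decide (l = c.1)) ||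
      (decide (k = 2) && decide (l = c.2.1)) || (decide (k = 3) && decide (l = c.2.2)))) = true ↔
      Nl k c l := by
    intro k l
    simp only [Nl, Bool.not_eq_true', Bool.or_eq_false_iff, Bool.and_eq_false_iff,
      decide_eq_false_iff_not]
    tauto
  simp only [DCl, DC, List.mem_append, List.mem_cons, List.not_mem_nil, or_false,
    List.mem_flatMap, List.mem_range, List.mem_map, List.mem_filter, mem_litsL, key]
  constructor
  · rintro ((rfl | rfl) | ⟨k, hk, l, ⟨hl, hn⟩, rfl⟩)
    · exact .inl ⟨0, .inl rfl, rfl⟩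
    · exact .inl ⟨4, .inr rfl, rfl⟩
    · exact .inr ⟨k, by omega, l, hl, hn, rfl⟩
  · rintro (⟨k, rfl | rfl, rfl⟩ | ⟨k, hk, l, hl, hn, rfl⟩)
    · exact .inl (.inl rfl)
    · exact .inl (.inr rfl)
    · exact .inr ⟨k, by omega, l, ⟨hl, hn⟩, rfl⟩

/-- The words which start with the marker of the clause with number `i`. -/
def rowL (V : List Var) (i : ℕ) (c : Cl) : List (List Letter) :=
  ((DCl V c).flatMap fun s => (DNl V).map fun t => h i :: (s ++ t ++ [dN])) ++
  ((DCl V c).flatMap fun s => TFl.map fun t => h i :: (s ++ t ++ [dF])) ++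
  [h i :: (A 3 ++ [dF])]

/-- The words which start with the marker `he`. -/
def rowE (V : List Var) : List (List Letter) :=
  ((SEl V).flatMap fun s => (DNl V).map fun t => he :: (s ++ t ++ [dN])) ++
  ((SEl V).flatMap fun s => TFl.map fun t => he :: (s ++ t ++ [dF])) ++
  V.map fun v => [he, t v, z v, dN]

/-- The list of the words in `LL ψ V`. -/
def LLl (ψ : List Cl) (V : List Var) : List (List Letter) :=
  ((List.range ψ.length).flatMap fun i => rowL V i (ψ.getD i ((((0, 0), true)), ((0, 0), true),
    ((0, 0), true)))) ++ rowE V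

theorem mem_LLl {ψ : List Cl} {V : List Var} {w : List Letter} : w ∈ LLl ψ V ↔ w ∈ LL ψ V := by
  constructor
  · intro hw
    rw [LLl, List.mem_append] at hw
    rcases hw with hw | hw
    · rw [List.mem_flatMap] at hw
      obtain ⟨i, hi, hw⟩ := hw
      rw [List.mem_range] at hi
      obtain ⟨c, hc⟩ : ∃ c, ψ[i]? = some c := ⟨ψ[i], List.getElem?_eq_getElem hi⟩
      rw [List.getD_eq_getElem?_getD, hc, Option.getD_some] at hw
      simp only [rowL, List.mem_append, List.mem_flatMap, List.mem_map, List.mem_singleton,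
        mem_DCl, mem_DNl, mem_TFl] at hw
      rcases hw with (⟨s, hs, t, ht, rfl⟩ | ⟨s, hs, t, ht, rfl⟩) | rfl
      · exact ⟨_, _, _, .inl ⟨i, c, hc, rfl, rfl, s, t, hs, ht, rfl⟩, rfl⟩
      · exact ⟨_, _, _, .inr (.inl ⟨i, c, hc, rfl, rfl, .inl ⟨s, t, hs, ht, rfl⟩⟩), rfl⟩
      · exact ⟨_, _, _, .inr (.inl ⟨i, c, hc, rfl, rfl, .inr rfl⟩), rfl⟩
    · simp only [rowE, List.mem_append, List.mem_flatMap, List.mem_map, mem_SEl, mem_DNl,
        mem_TFl] at hw
      rcases hw with (⟨s, hs, t, ht, rfl⟩ | ⟨s, hs, t, ht, rfl⟩) | ⟨v, hv, rfl⟩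
      · exact ⟨_, _, _, .inr (.inr (.inl ⟨rfl, rfl, .inl ⟨s, t, hs, ht, rfl⟩⟩)), rfl⟩
      · exact ⟨_, _, _, .inr (.inr (.inr ⟨rfl, rfl, s, t, hs, ht, rfl⟩)), rfl⟩
      · exact ⟨_, _, _, .inr (.inr (.inl ⟨rfl, rfl, .inr ⟨v, hv, rfl⟩⟩)), rfl⟩
  · rintro ⟨r, d, x, hx, rfl⟩
    rw [LLl, List.mem_append]
    have hrow : ∀ i c, ψ[i]? = some c → r :: (x ++ [d]) ∈ rowL V i c →
        (r :: (x ++ [d])) ∈ (List.range ψ.length).flatMap fun i => rowL V i
          (ψ.getD i ((((0, 0), true)), ((0, 0), true), ((0, 0), true))) := by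
      intro i c hc hw
      rw [List.mem_flatMap]
      refine ⟨i, ?_, ?_⟩
      · rw [List.mem_range]
        exact (List.getElem?_eq_some_iff.1 hc).1
      · rw [List.getD_eq_getElem?_getD, hc, Option.getD_some]
        exact hw
    rcases hx with ⟨i, c, hi, rfl, rfl, s, t, hs, ht, rfl⟩ |
      ⟨i, c, hi, rfl, rfl, ⟨s, t, hs, ht, rfl⟩ | rfl⟩ |
      ⟨rfl, rfl, ⟨s, t, hs, ht, rfl⟩ | ⟨v, hv, rfl⟩⟩ | ⟨rfl, rfl, s, t, hs, ht, rfl⟩
    · left
      apply hrow i c hi
      simp only [rowL, List.mem_append, List.mem_flatMap, List.mem_map, mem_DCl, mem_DNl]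
      exact .inl (.inl ⟨s, hs, t, ht, rfl⟩)
    · left
      apply hrow i c hi
      simp only [rowL, List.mem_append, List.mem_flatMap, List.mem_map, mem_DCl, mem_TFl]
      exact .inl (.inr ⟨s, hs, t, ht, rfl⟩)
    · left
      apply hrow i c hi
      simp only [rowL, List.mem_append, List.mem_singleton]
      exact .inr trivial
    · right
      simp only [rowE, List.mem_append, List.mem_flatMap, List.mem_map, mem_SEl, mem_DNl]
      exact .inl (.inl ⟨s, hs, t, ht, rfl⟩)
    · right
      simp only [rowE, List.mem_append, List.mem_map]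
      exact .inr ⟨v, hv, rfl⟩
    · right
      simp only [rowE, List.mem_append, List.mem_flatMap, List.mem_map, mem_SEl, mem_TFl]
      exact .inl (.inr ⟨s, hs, t, ht, rfl⟩)

theorem finite_LL (ψ : List Cl) (V : List Var) : Set.Finite (LL ψ V : Set (List Letter)) :=
  (LLl ψ V).finite_toSet.subset fun _ hw => mem_LLl.2 hw

/-! ### Lengths -/

theorem length_u (l : Lit) : (u l).length ≤ 2 := by
  rcases u_cases l with h | h <;> simp [h.2]

theorem length_A (k : ℕ) : (A k).length = k := by simp [A]

theorem length_DN {V : List Var} {y : List Letter} (hy : DN V y) : y.length ≤ 7 := by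
  obtain ⟨j, hj, x, rfl | (⟨l, l', -, -, rfl⟩ | ⟨v, -, l, -, -, rfl⟩), rfl⟩ := hy
  · simp [length_A]; omega
  · have := length_u l
    have := length_u l'
    simp [length_A]; omega
  · have := length_u l
    simp [length_A]; omega

theorem length_DC {V : List Var} {c : Cl} {y : List Letter} (hy : DC V c y) : y.length ≤ 6 := by
  rcases hy with ⟨k, hk, rfl⟩ | ⟨k, hk, l, -, -, rfl⟩
  · simp [length_A]; omega
  · have := length_u l
    simp [length_A]; omega

theorem length_TF {y : List Letter} (hy : TF y) : y.length ≤ 2 := by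
  obtain ⟨j, hj, rfl⟩ := hy
  simp [length_A]; omega

theorem length_SE {V : List Var} {y : List Letter} (hy : SE V y) : y.length ≤ 1 := by
  rcases hy with rfl | ⟨v, -, rfl | rfl⟩ <;> simp

/-- All words have length at most `15`. -/
theorem length_LL {ψ : List Cl} {V : List Var} {w : List Letter} (hw : w ∈ LL ψ V) :
    w.length ≤ 15 := by
  obtain ⟨r, d, x, hx, rfl⟩ := hw
  suffices x.length ≤ 13 by simp; omega
  rcases hx with ⟨i, c, -, -, -, s, t, hs, ht, rfl⟩ |
    ⟨i, c, -, -, -, ⟨s, t, hs, ht, rfl⟩ | rfl⟩ |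
    ⟨-, -, ⟨s, t, hs, ht, rfl⟩ | ⟨v, -, rfl⟩⟩ | ⟨-, -, s, t, hs, ht, rfl⟩
  · have := length_DC hs
    have := length_DN ht
    simp; omega
  · have := length_DC hs
    have := length_TF ht
    simp; omega
  · simp [length_A]
  · have := length_SE hs
    have := length_DN ht
    simp; omega
  · simp
  · have := length_SE hs
    have := length_TF ht
    simp; omega

/-! ### Formulas with three literals per clause -/

open TMLib in
/-- The chain of three-literal clauses for one clause. -/
def chain (i : ℕ) (c : List (ℕ × Bool)) : List Cl :=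
  ((((i + 1, 0), true)), ((i + 1, 0), true), ((i + 1, 0), true)) ::
  ((((i + 1, c.length), false)), ((i + 1, c.length), false), ((i + 1, c.length), false)) ::
  (List.range c.length).map fun j =>
    ((((i + 1, j), false)), ((0, (c.getD j (0, true)).1), (c.getD j (0, true)).2),
      ((i + 1, j + 1), true))

/-- The three-literal formula of a CNF formula. -/
def to3 (φ : TMLib.CNF) : List Cl :=
  (List.range φ.length).flatMap fun i => chain i (φ.getD i [])

/-- The values of the chain variables. -/
def chainVal (v : ℕ → Bool) (φ : TMLib.CNF) : Var → Bool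
  | (0, n) => v n
  | (i + 1, j) => ((φ.getD i []).take j).all fun l => !(v l.1 == l.2)

theorem sat3_to3 (φ : TMLib.CNF) : Sat3 (to3 φ) ↔ TMLib.Sat φ := by
  constructor
  · rintro ⟨v, hv⟩
    refine ⟨fun n => v (0, n), ?_⟩
    intro c hc
    obtain ⟨i, hi⟩ := List.mem_iff_getElem?.1 hc
    have hilt : i < φ.length := (List.getElem?_eq_some_iff.1 hi).1
    have hmem : ∀ x ∈ chain i c, x ∈ to3 φ := by
      intro x hx
      rw [to3, List.mem_flatMap]
      refine ⟨i, List.mem_range.2 hilt, ?_⟩
      rw [List.getD_eq_getElem?_getD, hi, Option.getD_some]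
      exact hx
    by_contra hcon
    push Not at hcon
    have key : ∀ j ≤ c.length, v (i + 1, j) = true := by
      intro j
      induction j with
      | zero =>
        intro _
        have := hv _ (hmem _ List.mem_cons_self)
        simpa using this
      | succ j ih =>
        intro hj
        have h1 := ih (by omega)
        have h2 := hv _ (hmem ((((i + 1, j), false)), ((0, (c.getD j (0, true)).1),
          (c.getD j (0, true)).2), ((i + 1, j + 1), true)) (by
            simp only [chain, List.mem_cons, List.mem_map, List.mem_range]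
            exact .inr (.inr ⟨j, by omega, rfl⟩)))
        simp only [h1] at h2
        have h3 : c.getD j (0, true) ∈ c := by
          rw [List.getD_eq_getElem?_getD, List.getElem?_eq_getElem (by omega : j < c.length)]
          simp
        have h4 := hcon _ h3
        rcases h2 with h2 | h2 | h2
        · simp at h2
        · exact absurd h2 h4
        · exact h2
    have h5 := hv _ (hmem ((((i + 1, c.length), false)), ((i + 1, c.length), false),
      ((i + 1, c.length), false)) (List.mem_cons_of_mem _ List.mem_cons_self))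
    have h6 := key c.length le_rfl
    simp [h6] at h5
  · rintro ⟨v, hv⟩
    refine ⟨chainVal v φ, ?_⟩
    intro x hx
    rw [to3, List.mem_flatMap] at hx
    obtain ⟨i, hi, hx⟩ := hx
    rw [List.mem_range] at hi
    have hmem : φ.getD i [] ∈ φ := by
      rw [List.getD_eq_getElem?_getD, List.getElem?_eq_getElem hi]
      simp
    obtain ⟨l, hl, hvl⟩ := hv _ hmem
    have h0 : ∀ j, chainVal v φ (i + 1, j) = ((φ.getD i []).take j).all fun l => !(v l.1 == l.2) :=
      fun j => rfl
    have h00 : ∀ n, chainVal v φ (0, n) = v n := fun n => rfl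
    generalize φ.getD i [] = cl at *
    simp only [chain, List.mem_cons, List.mem_map, List.mem_range] at hx
    rcases hx with rfl | rfl | ⟨j, hj, rfl⟩
    · simp [h0]
    · left
      simp only [h0, List.take_length]
      rw [Bool.eq_false_iff]
      intro h
      rw [List.all_eq_true] at h
      have := h l hl
      simp [hvl] at this
    · simp only [h0, h00]
      by_cases h1 : ((cl.take j).all fun l => !(v l.1 == l.2)) = true
      · by_cases h2 : v (cl.getD j (0, true)).1 = (cl.getD j (0, true)).2
        · right; left; exact h2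
        · right; right
          rw [List.take_succ_eq_append_getElem hj, List.all_append, h1]
          have h3 : cl.getD j (0, true) = cl[j] := by
            rw [List.getD_eq_getElem?_getD, List.getElem?_eq_getElem hj]
            rfl
          rw [h3] at h2
          simpa using h2
      · left
        exact Bool.eq_false_iff.2 h1

/-- The variables of a formula. -/
def varsL (ψ : List Cl) : List Var := ψ.flatMap fun c => [c.1.1, c.2.1.1, c.2.2.1]

theorem varsL_spec (ψ : List Cl) :
    ∀ c ∈ ψ, c.1.1 ∈ varsL ψ ∧ c.2.1.1 ∈ varsL ψ ∧ c.2.2.1 ∈ varsL ψ := by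
  intro c hc
  simp only [varsL, List.mem_flatMap]
  exact ⟨⟨c, hc, by simp⟩, ⟨c, hc, by simp⟩, ⟨c, hc, by simp⟩⟩

/-- The language of a formula has a nontrivial factorization iff the formula is satisfiable. -/
theorem factorization_iff (φ : TMLib.CNF) :
    HasFactorization (LL (to3 φ) (varsL (to3 φ))) ↔ TMLib.Sat φ := by
  rw [← sat3_to3]
  exact ⟨sat_of_factorization (varsL_spec _), factorization_of_sat (finite_LL _ _)⟩

end Pool.Agent.Work.MP_e24068_lc
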