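import Pool.Agent.Work.MP_e24068_lc.Core
import Pool.Agent.Work.MP_e24068_lc.Defs

/-!
The language `LL ψ V` has a nontrivial factorization if and only if `ψ` is satisfiable.
-/

set_option autoImplicit false

namespace Pool.Agent.Work.MP_e24068_lc

open Letter

/-- Satisfiability of a 3-CNF formula. -/
def Sat3 (ψ : List Cl) : Prop :=
  ∃ v : Var → Bool, ∀ c ∈ ψ, v c.1.1 = c.1.2 ∨ v c.2.1.1 = c.2.1.2 ∨ v c.2.2.1 = c.2.2.2

theorem finite_left {α : Type*} {L L₁ L₂ : Language α} (hL : Set.Finite (L : Set (List α)))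
    (h : L = L₁ * L₂) {y : List α} (hy : y ∈ L₂) : Set.Finite (L₁ : Set (List α)) := by
  refine Set.Finite.of_finite_image (f := fun x => x ++ y) (hL.subset ?_) ?_
  · rintro w ⟨x, hx, rfl⟩
    show x ++ y ∈ L
    rw [h]
    exact Language.append_mem_mul hx hy
  · intro x _ x' _ hxx
    exact List.append_cancel_right hxx

theorem finite_right {α : Type*} {L L₁ L₂ : Language α} (hL : Set.Finite (L : Set (List α)))
    (h : L = L₁ * L₂) {x : List α} (hx : x ∈ L₁) : Set.Finite (L₂ : Set (List α)) := by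
  refine Set.Finite.of_finite_image (f := fun y => x ++ y) (hL.subset ?_) ?_
  · rintro w ⟨y, hy, rfl⟩
    show x ++ y ∈ L
    rw [h]
    exact Language.append_mem_mul hx hy
  · intro y _ y' _ hyy
    exact List.append_cancel_left hyy

variable {ψ : List Cl} {V : List Var}

theorem mem_LL {r d : Letter} {x : List Letter} : r :: (x ++ [d]) ∈ LL ψ V ↔ Comp ψ V r d x := by
  constructor
  · rintro ⟨r', d', x', h, he⟩
    simp only [List.cons.injEq] at he
    obtain ⟨rfl, he⟩ := he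
    obtain ⟨rfl, h2⟩ := List.append_inj' he rfl
    simp only [List.cons.injEq, and_true] at h2
    subst h2
    exact h
  · intro h
    exact ⟨r, d, x, h, rfl⟩

section necessary

variable {L₁ L₂ : Language Letter} (hL : LL ψ V = L₁ * L₂)

include hL in
theorem nil_not_mem_left (h1 : L₁ ≠ 1) {y₀ : List Letter} (hy₀ : y₀ ∈ L₂) : [] ∉ L₁ := by
  intro hnil
  obtain ⟨x, hx, hxn⟩ : ∃ x ∈ L₁, x ≠ [] := by
    by_contra hcon
    push Not at hcon
    apply h1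
    ext w
    rw [Language.mem_one]
    exact ⟨fun hw => hcon w hw, fun hw => hw ▸ hnil⟩
  have hy : y₀ ∈ LL ψ V := by
    rw [hL]
    simpa using Language.append_mem_mul hnil hy₀
  obtain ⟨r, d, w, hw, rfl⟩ := hy
  have hxy : x ++ (r :: (w ++ [d])) ∈ LL ψ V := by
    rw [hL]
    exact Language.append_mem_mul hx hy₀
  obtain ⟨r', d', w', hw', he'⟩ := hxy
  obtain ⟨x0, x1, rfl⟩ := List.exists_cons_of_ne_nil hxn
  simp only [List.cons_append, List.cons.injEq] at he'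
  have hr : r ∈ w' ++ [d'] := by
    rw [← he'.2]
    simp
  rcases List.mem_append.1 hr with hr | hr
  · exact (hw'.free.2.2 r hr).1 hw.free.1
  · simp only [List.mem_singleton] at hr
    exact isR_not_isD hw.free.1 (hr ▸ hw'.free.2.1)

include hL in
theorem nil_not_mem_right (h2 : L₂ ≠ 1) {x₀ : List Letter} (hx₀ : x₀ ∈ L₁) : [] ∉ L₂ := by
  intro hnil
  obtain ⟨y, hy, hyn⟩ : ∃ x ∈ L₂, x ≠ [] := by
    by_contra hcon
    push Not at hcon
    apply h2
    ext w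
    rw [Language.mem_one]
    exact ⟨fun hw => hcon w hw, fun hw => hw ▸ hnil⟩
  have hx : x₀ ∈ LL ψ V := by
    rw [hL]
    simpa using Language.append_mem_mul hx₀ hnil
  obtain ⟨r, d, w, hw, rfl⟩ := hx
  have hxy : (r :: (w ++ [d])) ++ y ∈ LL ψ V := by
    rw [hL]
    exact Language.append_mem_mul hx₀ hy
  obtain ⟨r', d', w', hw', he'⟩ := hxy
  obtain ⟨y1, y0, rfl⟩ : ∃ y1 y0, y = y1 ++ [y0] :=
    ⟨y.dropLast, y.getLast hyn, (List.dropLast_append_getLast hyn).symm⟩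
  simp only [List.cons_append, List.append_assoc, List.cons.injEq] at he'
  have h3 : (w ++ d :: y1) ++ [y0] = w' ++ [d'] := by
    rw [← he'.2]; simp
  have h4 := (List.append_inj' h3 rfl).1
  have hr : d ∈ w' := by
    rw [← h4]
    simp
  exact (hw'.free.2.2 d hr).2 hw.free.2.1

include hL in
theorem split (hn1 : [] ∉ L₁) (hn2 : [] ∉ L₂) {r d : Letter} {x : List Letter}
    (h : Comp ψ V r d x) : ∃ x₁ x₂, x = x₁ ++ x₂ ∧ r :: x₁ ∈ L₁ ∧ x₂ ++ [d] ∈ L₂ := by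
  have h1 := mem_LL.2 h
  rw [hL, Language.mem_mul] at h1
  obtain ⟨p, hp, q, hq, hpq⟩ := h1
  obtain ⟨p0, p1, rfl⟩ := List.exists_cons_of_ne_nil (fun h => hn1 (h ▸ hp) : p ≠ [])
  obtain ⟨q1, q0, rfl⟩ : ∃ y1 y0, q = y1 ++ [y0] :=
    ⟨q.dropLast, q.getLast (fun h => hn2 (h ▸ hq)),
      (List.dropLast_append_getLast (fun h => hn2 (h ▸ hq))).symm⟩
  simp only [List.cons_append, List.cons.injEq] at hpq
  obtain ⟨rfl, h2⟩ := hpq
  rw [← List.append_assoc] at h2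
  obtain ⟨h3, h4⟩ := List.append_inj' h2 rfl
  simp only [List.cons.injEq, and_true] at h4
  subst h4
  exact ⟨p1, q1, h3.symm, hp, hq⟩

include hL in
theorem unsplit {r d : Letter} {x₁ x₂ : List Letter} (h1 : r :: x₁ ∈ L₁) (h2 : x₂ ++ [d] ∈ L₂) :
    Comp ψ V r d (x₁ ++ x₂) := by
  rw [← mem_LL, hL]
  have := Language.append_mem_mul h1 h2
  simpa using this

theorem comp_he_nil_dN : Comp ψ V he dN [] :=
  .inr (.inr (.inl ⟨rfl, rfl, .inl ⟨[], [], .inl rfl, ⟨0, by omega, [], .inl rfl, rfl⟩, rfl⟩⟩))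

theorem comp_he_nil_dF : Comp ψ V he dF [] :=
  .inr (.inr (.inr ⟨rfl, rfl, [], [], .inl rfl, ⟨0, by omega, rfl⟩, rfl⟩))

theorem A_split {n : ℕ} {x y : List Letter} (h : A n = x ++ y) :
    ∃ k ≤ n, x = A k ∧ y = A (n - k) := by
  refine ⟨x.length, ?_, ?_, ?_⟩
  · have := congrArg List.length h
    simp [A] at this
    omega
  · unfold A at h ⊢
    rw [List.eq_replicate_iff]
    refine ⟨rfl, fun b hb => ?_⟩
    have : b ∈ List.replicate n a := by rw [h]; simp [hb]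
    exact List.eq_of_mem_replicate this
  · have hlen := congrArg List.length h
    unfold A at h hlen ⊢
    rw [List.eq_replicate_iff]
    simp only [List.length_replicate, List.length_append] at hlen
    refine ⟨by omega, fun b hb => ?_⟩
    have : b ∈ List.replicate n a := by rw [h]; simp [hb]
    exact List.eq_of_mem_replicate this

theorem sat_of_factorization (hV : ∀ c ∈ ψ, c.1.1 ∈ V ∧ c.2.1.1 ∈ V ∧ c.2.2.1 ∈ V)
    (h : HasFactorization (LL ψ V)) : Sat3 ψ := by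
  obtain ⟨L₁, L₂, -, -, hL, h1, h2⟩ := h
  have h0 := mem_LL.2 (comp_he_nil_dN (ψ := ψ) (V := V))
  rw [hL, Language.mem_mul] at h0
  obtain ⟨x₀, hx₀, y₀, hy₀, -⟩ := h0
  have hn1 := nil_not_mem_left hL h1 hy₀
  have hn2 := nil_not_mem_right hL h2 hx₀
  have hhe : [he] ∈ L₁ := by
    obtain ⟨x₁, x₂, he', h3, h4⟩ := split hL hn1 hn2 (comp_he_nil_dN (ψ := ψ) (V := V))
    rw [eq_comm, List.append_eq_nil_iff] at he'
    rw [he'.1] at h3
    exact h3
  have hdF : [dF] ∈ L₂ := by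
    obtain ⟨x₁, x₂, he', h3, h4⟩ := split hL hn1 hn2 (comp_he_nil_dF (ψ := ψ) (V := V))
    rw [eq_comm, List.append_eq_nil_iff] at he'
    rw [he'.2] at h4
    exact h4
  -- one of the two words of a variable is available
  have hvar : ∀ v ∈ V, [z v, dN] ∈ L₂ ∨ [t v, z v, dN] ∈ L₂ := by
    intro v hv
    have hc : Comp ψ V he dN [t v, z v] := .inr (.inr (.inl ⟨rfl, rfl, .inr ⟨v, hv, rfl⟩⟩))
    obtain ⟨x₁, x₂, he', h3, h4⟩ := split hL hn1 hn2 hc
    rcases x₁ with _ | ⟨y, _ | ⟨y', x₁⟩⟩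
    · right
      simp only [List.nil_append] at he'
      rw [← he'] at h4
      exact h4
    · left
      simp only [List.cons_append, List.nil_append, List.cons.injEq] at he'
      rw [← he'.2] at h4
      exact h4
    · exfalso
      simp only [List.cons_append, List.cons.injEq] at he'
      obtain ⟨rfl, rfl, he'⟩ := he'
      rw [eq_comm, List.append_eq_nil_iff] at he'
      rw [he'.1] at h3
      exact not_comp_tz v (by simpa using unsplit hL (x₂ := []) h3 hdF)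
  -- the assignment
  classical
  refine ⟨fun v => decide ([z v, dN] ∉ L₂), ?_⟩
  have hlit : ∀ l : Lit, l.1 ∈ V → u l ++ [dN] ∉ L₂ → decide ([z l.1, dN] ∉ L₂) = l.2 := by
    intro l hl hu
    rcases u_cases l with h' | h'
    · rw [h'.2] at hu
      rw [h'.1]
      simpa using hu
    · rw [h'.2] at hu
      rw [h'.1]
      have := (hvar l.1 hl).resolve_right hu
      simpa using this
  intro c hc
  obtain ⟨i, hi⟩ := List.mem_iff_getElem?.1 hc
  have hcomp : Comp ψ V (h i) dF (A 3) := .inr (.inl ⟨i, c, hi, rfl, rfl, .inr rfl⟩)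
  obtain ⟨x₁, x₂, he', h3, h4⟩ := split hL hn1 hn2 hcomp
  obtain ⟨k, hk, rfl, rfl⟩ := A_split he'
  have key : ∀ l : Lit, ¬ Nl k c l → u l ++ [dN] ∉ L₂ := by
    intro l hl hu
    exact not_comp_lit hi hl (unsplit hL h3 hu)
  have hVc := hV c hc
  interval_cases k
  · exfalso
    exact not_comp_A3 (by simpa using unsplit hL (x₁ := []) hhe h4)
  · left
    exact hlit c.1 hVc.1 (key c.1 (by simp [Nl]))
  · right; left
    exact hlit c.2.1 hVc.2.1 (key c.2.1 (by simp [Nl]))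
  · right; right
    exact hlit c.2.2 hVc.2.2 (key c.2.2 (by simp [Nl]))

end necessary

section sufficient

theorem DN_A {j : ℕ} (hj : j ≤ 3) : DN V (A j) := ⟨j, hj, [], .inl rfl, by simp⟩

theorem DN_AUP {j : ℕ} (hj : j ≤ 3) {y : List Letter} (hy : UP V y) : DN V (A j ++ y) :=
  ⟨j, hj, y, .inr hy, rfl⟩

theorem DN_UP {y : List Letter} (hy : UP V y) : DN V y := by
  simpa using DN_AUP (j := 0) (by omega) hy

theorem DC_A {c : Cl} {k : ℕ} (hk : k = 0 ∨ k = 4) : DC V c (A k) := .inl ⟨k, hk, rfl⟩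

theorem DC_nil {c : Cl} : DC V c [] := DC_A (k := 0) (.inl rfl)

theorem UP_uu {l l' : Lit} (hl : l.1 ∈ V) (hl' : l'.1 ∈ V) : UP V (u l ++ u l') :=
  .inl ⟨l, l', hl, hl', rfl⟩

/-- `a^i` times a fixed word of the second factor. -/
theorem A_mul_DN {c : Cl} {i : ℕ} (hi : 1 ≤ i) (hi3 : i ≤ 3) {t : List Letter} (ht : DN V t) :
    ∃ s t', DC V c s ∧ DN V t' ∧ A i ++ t = s ++ t' := by
  obtain ⟨j, hj, y, hy, rfl⟩ := ht
  rcases le_or_gt (i + j) 3 with h | h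
  · refine ⟨[], A (i + j) ++ y, DC_nil, ⟨i + j, h, y, hy, rfl⟩, ?_⟩
    simp [A_add]
  · refine ⟨A 4, A (i + j - 4) ++ y, DC_A (.inr rfl), ⟨i + j - 4, by omega, y, hy, rfl⟩, ?_⟩
    rw [← List.append_assoc, ← List.append_assoc, ← A_add, ← A_add]
    congr 2
    omega

/-- A fixed word of the first factor times the word of a literal. -/
theorem DC_mul_u {c : Cl} {s : List Letter} (hs : DC V c s) {l : Lit} (hl : l.1 ∈ V) :
    ∃ s' t', DC V c s' ∧ DN V t' ∧ s ++ u l = s' ++ t' := by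
  rcases hs with ⟨k, hk, rfl⟩ | ⟨k, hk, l', hl', hn, rfl⟩
  · refine ⟨A k ++ u l, [], .inr ⟨k, by omega, l, hl, ?_, rfl⟩, DN_A (j := 0) (by omega), by simp⟩
    refine ⟨?_, ?_, ?_⟩ <;> omega
  · rcases le_or_gt k 3 with h | h
    · refine ⟨[], A k ++ (u l' ++ u l), DC_nil, DN_AUP h (UP_uu hl' hl), by simp⟩
    · refine ⟨A k, u l' ++ u l, DC_A (by omega), DN_UP (UP_uu hl' hl), by simp⟩

variable (σ : Var → Bool)

/-- The `k`-th literal of a clause (for `k = 1, 2, 3`). -/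
def nth (k : ℕ) (c : Cl) : Lit := if k = 1 then c.1 else if k = 2 then c.2.1 else c.2.2

theorem nl_of_ne {k : ℕ} {c : Cl} {l : Lit} (h : l ≠ nth k c) : Nl k c l := by
  refine ⟨?_, ?_, ?_⟩ <;> (rintro rfl; simpa [nth] using h)

/-- The part of the first factor behind the marker `r`. -/
def F1 (ψ : List Cl) (V : List Var) (r : Letter) (x : List Letter) : Prop :=
  (∃ i c, ψ[i]? = some c ∧ r = h i ∧
    (DC V c x ∨ ∃ k, 1 ≤ k ∧ k ≤ 3 ∧ σ (nth k c).1 = (nth k c).2 ∧ x = A k)) ∨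
  (r = he ∧ SE V x)

/-- The part of the second factor before the marker `d`. -/
def F2 (V : List Var) (d : Letter) (x : List Letter) : Prop :=
  (d = dN ∧ (DN V x ∨ ∃ l : Lit, l.1 ∈ V ∧ σ l.1 ≠ l.2 ∧ x = u l)) ∨ (d = dF ∧ TF x)

theorem comp_of_F {r d : Letter} {x y : List Letter} (hx : F1 σ ψ V r x) (hy : F2 σ V d y) :
    Comp ψ V r d (x ++ y) := by
  rcases hx with ⟨i, c, hi, rfl, hx⟩ | ⟨rfl, hx⟩
  · rcases hy with ⟨rfl, hy⟩ | ⟨rfl, hy⟩
    · refine .inl ⟨i, c, hi, rfl, rfl, ?_⟩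
      rcases hx with hx | ⟨k, hk, hk3, hσ, rfl⟩
      · rcases hy with hy | ⟨l, hl, -, rfl⟩
        · exact ⟨x, y, hx, hy, rfl⟩
        · exact DC_mul_u hx hl
      · rcases hy with hy | ⟨l, hl, hσl, rfl⟩
        · exact A_mul_DN hk hk3 hy
        · refine ⟨A k ++ u l, [], .inr ⟨k, by omega, l, hl, ?_, rfl⟩, DN_A (j := 0) (by omega),
            by simp⟩
          apply nl_of_ne
          rintro rfl
          exact hσl hσ
    · refine .inr (.inl ⟨i, c, hi, rfl, rfl, ?_⟩)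
      rcases hx with hx | ⟨k, hk, hk3, hσ, rfl⟩
      · exact .inl ⟨x, y, hx, hy, rfl⟩
      · obtain ⟨j, hj, rfl⟩ := hy
        rw [← A_add]
        rcases lt_trichotomy (k + j) 3 with h3 | h3 | h3
        · exact .inl ⟨[], A (k + j), DC_nil, ⟨k + j, by omega, rfl⟩, rfl⟩
        · exact .inr (by rw [h3])
        · refine .inl ⟨A 4, A (k + j - 4), DC_A (.inr rfl), ⟨k + j - 4, by omega, rfl⟩, ?_⟩
          rw [← A_add]
          congr 1
          omega
  · rcases hy with ⟨rfl, hy⟩ | ⟨rfl, hy⟩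
    · refine .inr (.inr (.inl ⟨rfl, rfl, ?_⟩))
      rcases hy with hy | ⟨l, hl, -, rfl⟩
      · exact .inl ⟨x, y, hx, hy, rfl⟩
      · rcases hx with rfl | ⟨v, hv, rfl | rfl⟩
        · rcases u_cases l with h' | h'
          · exact .inl ⟨u l, [], .inr ⟨l.1, hl, .inl h'.2⟩, DN_A (j := 0) (by omega), by simp⟩
          · exact .inr ⟨l.1, hl, by simpa using h'.2⟩
        · exact .inl ⟨[], [z v] ++ u l, .inl rfl, DN_UP (UP_uu (l := (v, true)) hv hl), rfl⟩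
        · by_cases hlv : l = (v, true)
          · subst hlv
            exact .inr ⟨v, hv, rfl⟩
          · exact .inl ⟨[], [t v] ++ u l, .inl rfl, DN_UP (.inr ⟨v, hv, l, hl, hlv, rfl⟩), rfl⟩
    · exact .inr (.inr (.inr ⟨rfl, rfl, x, y, hx, hy, rfl⟩))

theorem F_of_comp (hσ : ∀ c ∈ ψ, σ c.1.1 = c.1.2 ∨ σ c.2.1.1 = c.2.1.2 ∨ σ c.2.2.1 = c.2.2.2)
    {r d : Letter} {x : List Letter} (h : Comp ψ V r d x) :
    ∃ x₁ x₂, x = x₁ ++ x₂ ∧ F1 σ ψ V r x₁ ∧ F2 σ V d x₂ := by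
  rcases h with ⟨i, c, hi, rfl, rfl, s, t, hs, ht, rfl⟩ |
    ⟨i, c, hi, rfl, rfl, ⟨s, t, hs, ht, rfl⟩ | rfl⟩ |
    ⟨rfl, rfl, ⟨s, t, hs, ht, rfl⟩ | ⟨v, hv, rfl⟩⟩ | ⟨rfl, rfl, s, t, hs, ht, rfl⟩
  · exact ⟨s, t, rfl, .inl ⟨i, c, hi, rfl, .inl hs⟩, .inl ⟨rfl, .inl ht⟩⟩
  · exact ⟨s, t, rfl, .inl ⟨i, c, hi, rfl, .inl hs⟩, .inr ⟨rfl, ht⟩⟩
  · obtain ⟨k, hk, hk3, hk4⟩ : ∃ k, 1 ≤ k ∧ k ≤ 3 ∧ σ (nth k c).1 = (nth k c).2 := by
      rcases hσ c (List.mem_of_getElem? hi) with h | h | h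
      · exact ⟨1, by omega, by omega, by simpa [nth] using h⟩
      · exact ⟨2, by omega, by omega, by simpa [nth] using h⟩
      · exact ⟨3, by omega, by omega, by simpa [nth] using h⟩
    refine ⟨A k, A (3 - k), ?_, .inl ⟨i, c, hi, rfl, .inr ⟨k, hk, hk3, hk4, rfl⟩⟩,
      .inr ⟨rfl, 3 - k, by omega, rfl⟩⟩
    rw [← A_add]
    congr 1
    omega
  · exact ⟨s, t, rfl, .inr ⟨rfl, hs⟩, .inl ⟨rfl, .inl ht⟩⟩
  · by_cases hv' : σ v = true
    · exact ⟨[], [t v, z v], rfl, .inr ⟨rfl, .inl rfl⟩,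
        .inl ⟨rfl, .inr ⟨(v, false), hv, by simp [hv'], rfl⟩⟩⟩
    · exact ⟨[t v], [z v], rfl, .inr ⟨rfl, .inr ⟨v, hv, .inr rfl⟩⟩,
        .inl ⟨rfl, .inr ⟨(v, true), hv, hv', rfl⟩⟩⟩
  · exact ⟨s, t, rfl, .inr ⟨rfl, hs⟩, .inr ⟨rfl, ht⟩⟩

theorem factorization_of_sat (hfin : Set.Finite (LL ψ V : Set (List Letter))) (hs : Sat3 ψ) :
    HasFactorization (LL ψ V) := by
  obtain ⟨σ, hσ⟩ := hs
  set L₁ : Language Letter := {w | ∃ r x, F1 σ ψ V r x ∧ w = r :: x} with hL₁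
  set L₂ : Language Letter := {w | ∃ d x, F2 σ V d x ∧ w = x ++ [d]} with hL₂
  have hL : LL ψ V = L₁ * L₂ := by
    ext w
    rw [Language.mem_mul]
    constructor
    · rintro ⟨r, d, x, hx, rfl⟩
      obtain ⟨x₁, x₂, rfl, h1, h2⟩ := F_of_comp σ hσ hx
      exact ⟨r :: x₁, ⟨r, x₁, h1, rfl⟩, x₂ ++ [d], ⟨d, x₂, h2, rfl⟩, by simp⟩
    · rintro ⟨p, ⟨r, x, hx, rfl⟩, q, ⟨d, y, hy, rfl⟩, rfl⟩
      exact ⟨r, d, x ++ y, comp_of_F σ hx hy, by simp⟩
  have h1 : [he] ∈ L₁ := ⟨he, [], .inr ⟨rfl, .inl rfl⟩, rfl⟩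
  have h2 : [dF] ∈ L₂ := ⟨dF, [], .inr ⟨rfl, 0, by omega, rfl⟩, rfl⟩
  refine ⟨L₁, L₂, finite_left hfin hL h2, finite_right hfin hL h1, hL, ?_, ?_⟩
  · intro h
    rw [h, Language.mem_one] at h1
    simp at h1
  · intro h
    rw [h, Language.mem_one] at h2
    simp at h2

end sufficient

end Pool.Agent.Work.MP_e24068_lc
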